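import Pool.Agent.H75.OM.TC

/-!
# Omnipotent for quantum computers, useless for circuits: row SEL
-/

set_option autoImplicit false

namespace Pool.Agent.H66.OM

open Finset Pool.Agent.H6.NB Pool.Agent.H70.OQ Pool.Agent.H70.EH Pool.Agent.H70.EI
  Pool.Agent.H78.XQ Pool.Agent.H75.OM

theorem cm_congr {n s : ℕ} {f g : List Bool → Bool} (h : Cm n s f) (e : ∀ x, f x = g x) :
    Cm n s g := by
  have : f = g := funext e
  rwa [← this]

theorem sel_aux (h1 : T_CMC) (h2 : Pool.Agent.H75.OM.T_CMB) (m s s' : ℕ)
    (f : List Bool → Bool) (hf : Cm m s' f)
    (l : List ((List Bool → Bool) × (List Bool → Bool))) :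
    (∀ c ∈ l, Cm m s c.1 ∧ Cm m s c.2) →
      Cm m ((2 * s + 8) * l.length + s')
        fun w => ((l.find? fun c => c.1 w).map fun c => c.2 w).getD (f w) := by
  induction l with
  | nil =>
    intro _
    exact cm_congr (by simpa using hf) fun x => by simp
  | cons c l ih =>
    intro hl
    have ih' := ih (fun c hc => hl c (List.mem_cons_of_mem _ hc))
    have hc := hl c List.mem_cons_self
    have h8 := h2.2.2.2.2.2.2
    have key := h1 m 3 8
      (fun j => if j = 0 then s else if j = 1 then s else (2 * s + 8) * l.length + s') _
      (fun j => if j = 0 then c.1 else if j = 1 then c.2 else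
        fun w => ((l.find? fun c => c.1 w).map fun c => c.2 w).getD (f w)) h8 (by
        intro j hj
        interval_cases j
        · simpa using hc.1
        · simpa using hc.2
        · simpa using ih')
    have e1 : 8 + ∑ j ∈ Finset.range 3,
        (fun j => if j = 0 then s else if j = 1 then s else (2 * s + 8) * l.length + s') j =
        (2 * s + 8) * (c :: l).length + s' := by
      simp only [Finset.sum_range_succ, Finset.sum_range_zero, List.length_cons]
      norm_num
      ring
    rw [e1] at key
    refine cm_congr key fun w => ?_
    have e3 : (List.range 3) = [0, 1, 2] := by decide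
    rw [e3]
    cases h : c.1 w with
    | true => simp [List.find?_cons, h]
    | false => simp [List.find?_cons, h]

theorem pf_SEL (h1 : T_CMC) (h2 : Pool.Agent.H75.OM.T_CMB) : T_SEL := by
  intro m s s' l f hl hf
  refine cm_congr (sel_aux h1 h2 m s s' f hf l hl) fun w => ?_
  cases h : l.find? fun c => c.1 w with
  | none => simp
  | some c => simp

end Pool.Agent.H66.OM
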