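import Pool.Agent.H75.OM.TD

/-!
# Omnipotent for quantum computers, useless for circuits: row SWP
-/

set_option autoImplicit false

namespace Pool.Agent.H66.OM

open Finset Pool.Agent.H6.NB Pool.Agent.H70.OQ Pool.Agent.H70.EH Pool.Agent.H70.EI
  Pool.Agent.H78.XQ Pool.Agent.H75.OM

section

variable {V : ℕ → ATM} {W : ℕ → Hm} {ρ : ℕ → ℕ} {E : Finset Ix}
  {O : (∀ i : {a // a ∈ E}, Cx V W ρ i.1) → (List Bool → Bool) → List Bool → Bool}

theorem val_pos (hO : IsY V W ρ E O) (P : ∀ i : {a // a ∈ E}, Cx V W ρ i.1)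
    (g : List Bool → Bool) (p : ℕ × List Bool) (h : Sum.inl p ∈ E)
    (u : Fin (2 * (hm V p).length) → Bool) (v : Fin (qs (hm V p)) → Bool) (b : Bool) :
    O P g (pos (hm V p) (List.ofFn u) (List.ofFn v) b) = (P ⟨.inl p, h⟩ : CP V p).1 u (b, v) :=
  congrFun (congrFun ((hO.isx g).blk P p h) u) (b, v)

theorem val_wps (hO : IsY V W ρ E O) (P : ∀ i : {a // a ∈ E}, Cx V W ρ i.1)
    (g : List Bool → Bool) (p : ℕ × List Bool) (h : Sum.inl p ∈ E)
    (z : Fin (wln (hm V p)) → Bool) :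
    O P g (wps (hm V p) (List.ofFn z)) = (P ⟨.inl p, h⟩ : CP V p).2 z :=
  congrFun ((hO.isx g).cor P p h) z

theorem val_eq (hO : IsY V W ρ E O) {P P₂ : ∀ i : {a // a ∈ E}, Cx V W ρ i.1}
    (g g₂ : List Bool → Bool) {p : ℕ × List Bool} (h : Sum.inl p ∈ E) {w : List Bool}
    (hw : BPos V p w) (e : P ⟨.inl p, h⟩ = P₂ ⟨.inl p, h⟩) : O P g w = O P₂ g₂ w := by
  rcases hw with ⟨u, v, b, rfl⟩ | ⟨z, rfl⟩
  · rw [val_pos hO P g p h, val_pos hO P₂ g₂ p h, e]
  · rw [val_wps hO P g p h, val_wps hO P₂ g₂ p h, e]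

theorem val_const (hO : IsY V W ρ E O) {P : ∀ i : {a // a ∈ E}, Cx V W ρ i.1}
    (g : List Bool → Bool) {p : ℕ × List Bool} (h : Sum.inl p ∈ E) {w : List Bool}
    (hw : BPos V p w) (b : Bool) (e : P ⟨.inl p, h⟩ = ((fun _ _ => b, fun _ => b) : CP V p)) :
    O P g w = b := by
  rcases hw with ⟨u, v, b', rfl⟩ | ⟨z, rfl⟩
  · rw [val_pos hO P g p h, e]
  · rw [val_wps hO P g p h, e]

theorem pos_inj (hO : IsY V W ρ E O) (P : ∀ i : {a // a ∈ E}, Cx V W ρ i.1)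
    {p p' : ℕ × List Bool} (h : Sum.inl p ∈ E) (h' : Sum.inl p' ∈ E) {w : List Bool}
    (hw : BPos V p w) (hw' : BPos V p' w) : p = p' := by
  classical
  by_contra hne
  let P₁ := Function.update (Function.update P ⟨.inl p, h⟩
    ((fun _ _ => true, fun _ => true) : CP V p)) ⟨.inl p', h'⟩
    ((fun _ _ => false, fun _ => false) : CP V p')
  have h1 : O P₁ (fun _ => false) w = true := by
    refine val_const hO _ h hw true ?_
    have hne' : (⟨.inl p, h⟩ : {a // a ∈ E}) ≠ ⟨.inl p', h'⟩ := by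
      intro e
      exact hne (Sum.inl.inj (Subtype.ext_iff.1 e))
    show Function.update _ _ _ _ = _
    rw [Function.update_of_ne hne', Function.update_self]
  have h2 : O P₁ (fun _ => false) w = false := by
    refine val_const hO _ h' hw' false ?_
    show Function.update _ _ _ _ = _
    rw [Function.update_self]
  rw [h1] at h2
  exact absurd h2 (by decide)

theorem pos_tab (hO : IsY V W ρ E O) (P : ∀ i : {a // a ∈ E}, Cx V W ρ i.1)
    {p : ℕ × List Bool} (h : Sum.inl p ∈ E) {w : List Bool}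
    (hw : BPos V p w) (a : ℕ) (ha : Sum.inr a ∈ E) (x : Nn (2 ^ ρ a) ((W a).1 + 1)) :
    w ≠ false :: nstr (2 ^ ρ a) ((W a).1 + 1) x := by
  classical
  intro e
  have hne : (⟨.inr a, ha⟩ : {a // a ∈ E}) ≠ ⟨.inl p, h⟩ := by
    intro e
    exact absurd (Subtype.ext_iff.1 e) (by simp)
  have h1 : ∀ b : Bool, b = tb (P ⟨.inr a, ha⟩ : Ct V W ρ (.inr a)) x := by
    intro b
    have h2 := (hO.isx fun _ => false).tab (Function.update P ⟨.inl p, h⟩
      ((fun _ _ => b, fun _ => b) : CP V p)) a ha x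
    rw [Function.update_of_ne hne, ← e] at h2
    rw [← h2]
    refine (val_const hO _ h hw b ?_).symm
    rw [Function.update_self]
  have := (h1 true).trans (h1 false).symm
  exact absurd this (by decide)

variable (V W ρ)

open Classical in
/-- The exchange of the contents of the blocks outside `Lo` with the default: the coordinates. -/
noncomputable def exP (E : Finset Ix) (Lo : Ix → Prop) (G : List Bool → Bool)
    (P : ∀ i : {a // a ∈ E}, Cx V W ρ i.1) : ∀ i : {a // a ∈ E}, Cx V W ρ i.1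
  | ⟨.inl p, h⟩ => if Lo (.inl p) then P ⟨.inl p, h⟩ else
      ((cps G (hm V p), cst G (hm V p)) : CP V p)
  | ⟨.inr a, h⟩ => P ⟨.inr a, h⟩

open Classical in
/-- The exchange of the contents of the blocks outside `Lo` with the default: the default. -/
noncomputable def exG (E : Finset Ix) (Lo : Ix → Prop)
    (O : (∀ i : {a // a ∈ E}, Cx V W ρ i.1) → (List Bool → Bool) → List Bool → Bool) (Λ : ℕ)
    (P : ∀ i : {a // a ∈ E}, Cx V W ρ i.1) (g : St Λ → Bool) : St Λ → Bool := fun w =>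
  if ∃ p, Sum.inl p ∈ E ∧ ¬ Lo (.inl p) ∧ BPos V p w.1 then O P (fun _ => false) w.1 else g w

variable {V W ρ}

theorem exP_lo {Lo : Ix → Prop} {G : List Bool → Bool} {P : ∀ i : {a // a ∈ E}, Cx V W ρ i.1}
    {p : ℕ × List Bool} (h : Sum.inl p ∈ E) (hp : Lo (.inl p)) :
    exP V W ρ E Lo G P ⟨.inl p, h⟩ = P ⟨.inl p, h⟩ := by
  simp only [exP, hp, if_true]

theorem exP_hi {Lo : Ix → Prop} {G : List Bool → Bool} {P : ∀ i : {a // a ∈ E}, Cx V W ρ i.1}
    {p : ℕ × List Bool} (h : Sum.inl p ∈ E) (hp : ¬ Lo (.inl p)) :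
    exP V W ρ E Lo G P ⟨.inl p, h⟩ = ((cps G (hm V p), cst G (hm V p)) : CP V p) := by
  simp only [exP, hp, if_false]

theorem ex_of {Λ : ℕ} {g : St Λ → Bool} {w : List Bool} (h : w.length ≤ Λ) :
    ex Λ g w = g ⟨w, h⟩ := by
  unfold Pool.Agent.H75.OM.ex
  exact dif_pos h

/-- The value of the exchanged coordinates. -/
theorem val_exP (hO : IsY V W ρ E O) {Lo : Ix → Prop} {G g : List Bool → Bool}
    {P : ∀ i : {a // a ∈ E}, Cx V W ρ i.1} {p : ℕ × List Bool} (h : Sum.inl p ∈ E)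
    (hp : ¬ Lo (.inl p)) {w : List Bool} (hw : BPos V p w) :
    O (exP V W ρ E Lo G P) g w = G w := by
  rcases hw with ⟨u, v, b', rfl⟩ | ⟨z, rfl⟩
  · rw [val_pos hO _ g p h, exP_hi h hp]
    rfl
  · rw [val_wps hO _ g p h, exP_hi h hp]
    rfl

theorem exP_exG (hO : IsY V W ρ E O) {Λ : ℕ} {Lo : Ix → Prop}
    (hΛ : ∀ p, Sum.inl p ∈ E → ∀ w, BPos V p w → w.length ≤ Λ)
    (P : ∀ i : {a // a ∈ E}, Cx V W ρ i.1) (g : St Λ → Bool) (G : List Bool → Bool) :
    exP V W ρ E Lo (ex Λ (exG V W ρ E Lo O Λ P g)) (exP V W ρ E Lo G P) = P := by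
  funext i
  obtain ⟨i, h⟩ := i
  rcases i with p | a
  · by_cases hp : Lo (.inl p)
    · rw [exP_lo h hp, exP_lo h hp]
    · rw [exP_hi h hp]
      have h1 : ∀ w, BPos V p w → ex Λ (exG V W ρ E Lo O Λ P g) w =
          O P (fun _ => false) w := by
        intro w hw
        rw [ex_of (hΛ p h w hw)]
        simp only [exG]
        rw [if_pos ⟨p, h, hp, hw⟩]
      show ((cps _ (hm V p), cst _ (hm V p)) : CP V p) = _
      have h2 : cps (ex Λ (exG V W ρ E Lo O Λ P g)) (hm V p) =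
          (P ⟨.inl p, h⟩ : CP V p).1 := by
        funext u v
        obtain ⟨b, v⟩ := v
        rw [← val_pos hO P (fun _ => false) p h u v b]
        exact h1 _ (Or.inl ⟨u, v, b, rfl⟩)
      have h3 : cst (ex Λ (exG V W ρ E Lo O Λ P g)) (hm V p) =
          (P ⟨.inl p, h⟩ : CP V p).2 := by
        funext z
        rw [← val_wps hO P (fun _ => false) p h z]
        exact h1 _ (Or.inr ⟨z, rfl⟩)
      rw [h2, h3]
      rfl
  · rfl

theorem exG_exP (hO : IsY V W ρ E O) {Λ : ℕ} {Lo : Ix → Prop}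
    (P : ∀ i : {a // a ∈ E}, Cx V W ρ i.1) (g : St Λ → Bool) :
    exG V W ρ E Lo O Λ (exP V W ρ E Lo (ex Λ g) P) (exG V W ρ E Lo O Λ P g) = g := by
  funext w
  by_cases hw : ∃ p, Sum.inl p ∈ E ∧ ¬ Lo (.inl p) ∧ BPos V p w.1
  · rw [exG, if_pos hw]
    obtain ⟨p, h, hp, hw⟩ := hw
    rw [val_exP hO h hp hw, ex_of w.2]
  · rw [exG, if_neg hw, exG, if_neg hw]

/-- The exchange turns one oracle into the other. -/
theorem O_exP (hO : IsY V W ρ E O) {Λ : ℕ} {Lo : Ix → Prop}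
    (P : ∀ i : {a // a ∈ E}, Cx V W ρ i.1) (g : St Λ → Bool) (w : List Bool)
    (hw : w.length ≤ Λ) :
    O (exP V W ρ E Lo (ex Λ g) P) (ex Λ (exG V W ρ E Lo O Λ P g)) w =
      OC V W ρ E Lo O P (ex Λ g) w := by
  by_cases h1 : ∃ p, Sum.inl p ∈ E ∧ ¬ Lo (.inl p) ∧ BPos V p w
  · rw [OC, if_pos h1]
    obtain ⟨p, h, hp, hb⟩ := h1
    exact val_exP hO h hp hb
  · rw [OC, if_neg h1]
    by_cases h2 : ∃ p, Sum.inl p ∈ E ∧ BPos V p w
    · obtain ⟨p, h, hb⟩ := h2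
      have hp : Lo (.inl p) := by
        by_contra hp
        exact h1 ⟨p, h, hp, hb⟩
      exact val_eq hO _ _ h hb (exP_lo h hp)
    · by_cases h3 : ∃ a, Sum.inr a ∈ E ∧ ∃ x : Nn (2 ^ ρ a) ((W a).1 + 1),
        w = false :: nstr (2 ^ ρ a) ((W a).1 + 1) x
      · obtain ⟨a, h, x, rfl⟩ := h3
        rw [(hO.isx _).tab _ a h x, (hO.isx _).tab _ a h x]
        rfl
      · have h4 : ∀ p, Sum.inl p ∈ E → ¬ BPos V p w := fun p h hb => h2 ⟨p, h, hb⟩
        have h5 : ∀ a, Sum.inr a ∈ E → ∀ x : Nn (2 ^ ρ a) ((W a).1 + 1),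
            w ≠ false :: nstr (2 ^ ρ a) ((W a).1 + 1) x := fun a h x e => h3 ⟨a, h, x, e⟩
        rw [hO.out w h4 h5, hO.out w h4 h5, ex_of hw, ex_of hw, exG, if_neg h1]

theorem wg0_const (p : ℕ × List Bool) (c c' : Cx V W ρ (.inl p)) :
    wg0 V W ρ (.inl p) c = wg0 V W ρ (.inl p) c' := by
  simp only [wg0, m0, mv]
  norm_num

end

theorem pf_SWP (_h1 : Pool.Agent.H70.EI.T_HMX) (_h2 : Pool.Agent.H6.NB.T_COD) : T_SWP := by
  intro V W ρ _ E O hO Λ Lo u F hΛ hu hF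
  -- the exchange
  let σ : (∀ i : {a // a ∈ E}, Cx V W ρ i.1) × (St Λ → Bool) →
      (∀ i : {a // a ∈ E}, Cx V W ρ i.1) × (St Λ → Bool) := fun x =>
    (exP V W ρ E Lo (ex Λ x.2) x.1, exG V W ρ E Lo O Λ x.1 x.2)
  have hσ : Function.Involutive σ := by
    rintro ⟨P, g⟩
    refine Prod.ext ?_ ?_
    · exact exP_exG hO hΛ P g _
    · exact exG_exP hO P g
  have hw : ∀ (P : ∀ i : {a // a ∈ E}, Cx V W ρ i.1) (g : St Λ → Bool),
      ∏ i, u i (P i) = ∏ i, u i (exP V W ρ E Lo (ex Λ g) P i) := by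
    intro P g
    refine Finset.prod_congr rfl fun i _ => ?_
    obtain ⟨i, h⟩ := i
    rcases i with p | a
    · by_cases hp : Lo (.inl p)
      · rw [exP_lo h hp]
      · rw [hu p h hp, hu p h hp]
        exact wg0_const p _ _
    · rfl
  simp only [mn]
  have e : ∀ Φ : (∀ i : {a // a ∈ E}, Cx V W ρ i.1) → (St Λ → Bool) → ℝ,
      ∑ P : (∀ i : {a // a ∈ E}, Cx V W ρ i.1), (∏ i, u i (P i)) *
        ((∑ g : St Λ → Bool, Φ P g) / 2 ^ Fintype.card (St Λ)) =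
      (∑ x : (∀ i : {a // a ∈ E}, Cx V W ρ i.1) × (St Λ → Bool),
        (∏ i, u i (x.1 i)) * Φ x.1 x.2) / 2 ^ Fintype.card (St Λ) := by
    intro Φ
    rw [Fintype.sum_prod_type, Finset.sum_div]
    refine Finset.sum_congr rfl fun P _ => ?_
    show _ = (∑ y : St Λ → Bool, (∏ i, u i (P i)) * Φ P y) / 2 ^ Fintype.card (St Λ)
    rw [← Finset.mul_sum, mul_div_assoc]
  rw [e fun P g => F (O P (ex Λ g)), e fun P g => F (OC V W ρ E Lo O P (ex Λ g))]
  congr 1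
  rw [← Equiv.sum_comp hσ.toPerm]
  refine Finset.sum_congr rfl fun x _ => ?_
  obtain ⟨P, g⟩ := x
  show (∏ i, u i (exP V W ρ E Lo (ex Λ g) P i)) *
    F (O (exP V W ρ E Lo (ex Λ g) P) (ex Λ (exG V W ρ E Lo O Λ P g))) = _
  rw [← hw P g]
  congr 1
  exact hF _ _ fun w hw => O_exP hO P g w hw

end Pool.Agent.H66.OM
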